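import Pool.Agent.Helper65.RT.Goals
import Pool.Agent.Helper69.Ram.PAR

/-!
# Packet RT-PAR: the parameters are admissible and the bounds hold
-/

namespace Pool.Agent.Helper94.RT

open Pool.Agent.Helper65.LinSpace Pool.Agent.Helper28.Ram Pool.Agent.Helper65.RT Finset
open Pool.Agent.Helper69.Ram (pR_spec pR_le)

theorem qT_pos (n : ℕ) : 1 ≤ qT n := Nat.le_add_left _ _

theorem qT_le (n : ℕ) : qT n ≤ n + 1 :=
  Nat.add_le_add_right (Nat.div_le_self _ _) 1

theorem qT_ll (n : ℕ) : qT n * ll n ≤ 2 * (n + 1) := by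
  unfold qT
  have h1 := Nat.div_mul_le_self n (ll n)
  have h2 := ll_le n
  rw [add_mul, one_mul]
  omega

theorem G_le {n : ℕ} {m : Pool.Agent.Helper65.RT.Mach} (hok : m.Ok) (hpar : Par n m) :
    m.G ≤ 4 * qT n := by
  have h1 : 0 < m.wn := Nat.mul_pos hok.ha hok.hE
  have h2 : m.G * 1 ≤ m.G * m.wn := Nat.mul_le_mul_left _ h1
  have h3 := hpar.h1
  omega

theorem E_le {n : ℕ} {m : Pool.Agent.Helper65.RT.Mach} (hok : m.Ok) (hpar : Par n m) :
    m.E ≤ 4 * qT n := by
  have h2 : m.E * 1 ≤ m.E * m.b := Nat.mul_le_mul_left _ hok.hb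
  have h3 := hpar.h1
  have h4 : m.wv = m.E * m.b := rfl
  omega

theorem PARA : PARA_stmt := by
  intro n m hok hpar
  have hG := G_le hok hpar
  have hE := E_le hok hpar
  have hq := qT_pos n
  have hqn := qT_le n
  have hp := (pR_spec n).2.1
  have h8 : 8 * (n + 2) ≤ (n + 2) ^ 4 := by
    have e : (n + 2) ^ 4 = (n + 2) ^ 3 * (n + 2) := by ring
    rw [e]
    refine Nat.mul_le_mul_right _ ?_
    calc 8 = 2 ^ 3 := by norm_num
      _ ≤ (n + 2) ^ 3 := Nat.pow_le_pow_left (by omega) 3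
  refine ⟨⟨?_, ?_, ?_, ?_, ?_, ?_⟩, ?_⟩
  · have := hpar.h1
    unfold JT
    omega
  · have := hpar.h2
    unfold JT
    omega
  · have := hpar.h3
    unfold JT
    omega
  · omega
  · omega
  · omega
  · have h1 := hpar.h1
    have h2 : m.nv m.G = m.G * m.wn + m.wv := rfl
    omega

theorem prod_cnt (m : Pool.Agent.Helper65.RT.Mach) (p K : ℕ) :
    ∏ l ∈ range (K * (m.G + 2)), m.cnt p l =
    (2 ^ (m.σ * m.E) * (p - 1) * (2 * m.E + 3) * ((p - 1) * (2 * m.G + 3)) ^ (m.G + 1)) ^ K := by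
  induction K with
  | zero => simp
  | succ K ih =>
    rw [add_mul, one_mul, prod_range_add, ih, pow_succ]
    congr 1
    rw [show m.G + 2 = (m.G + 1) + 1 by ring, prod_range_succ', mul_comm]
    congr 1
    · unfold Pool.Agent.Helper65.RT.Mach.cnt
      simp [ifz]
    · refine (prod_congr rfl (g := fun _ => (p - 1) * (2 * m.G + 3)) ?_).trans
        (by rw [prod_const, card_range, pow_succ])
      intro l hl
      have hl' := mem_range.1 hl
      unfold Pool.Agent.Helper65.RT.Mach.cnt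
      have e : (K * (m.G + 1 + 1) + (l + 1)) % (m.G + 2) = l + 1 := by
        rw [show m.G + 1 + 1 = m.G + 2 by ring, mul_comm, Nat.mul_add_mod]
        exact Nat.mod_eq_of_lt (by omega)
      rw [e]
      simp [ifz]

theorem PARB : PARB_stmt := by
  intro x m hok hpar
  have key : ∀ t : ℕ, t ≤ 2000 * (Nat.log 2 x + 1) → 2 ^ t ≤ CT x := by
    intro t ht
    refine (Nat.pow_le_pow_right (by norm_num) ht).trans ((two_pow_log_le x 2000).trans ?_)
    exact Nat.pow_le_pow_right (by omega) (by norm_num)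
  generalize Nat.log 2 x = n at *
  have hG := G_le hok hpar
  have hE := E_le hok hpar
  have hq := qT_pos n
  have hqn := qT_le n
  have hql := qT_ll n
  have hl := ll_pos n
  have hpw := lt_two_pow_ll n
  have hp : pR n ≤ 2 ^ (9 * ll n) :=
    (pR_le n).trans (Nat.pow_le_pow_right (by norm_num) (by omega))
  have h1 := hpar.h1
  have h2 := hpar.h2
  have h4 := hpar.h4
  refine ⟨⟨?_, ?_⟩, ?_, ?_⟩
  · refine (Nat.pow_le_pow_left hp _).trans ?_
    rw [← pow_mul]
    apply key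
    unfold JT
    calc 9 * ll n * (6 * (8 * qT n)) = 432 * (qT n * ll n) := by ring
      _ ≤ 2000 * (n + 1) := by omega
  · rw [prod_cnt]
    have hB : ∀ t : ℕ, t ≤ 4 * qT n → (pR n - 1) * (2 * t + 3) ≤ 2 ^ (14 * ll n) := by
      intro t ht
      have h5 : 2 * t + 3 ≤ 2 ^ (5 * ll n) := by
        calc 2 * t + 3 ≤ 2 ^ (ll n + 4) := by
              rw [pow_add]
              omega
          _ ≤ _ := Nat.pow_le_pow_right (by norm_num) (by omega)
      calc (pR n - 1) * (2 * t + 3) ≤ 2 ^ (9 * ll n) * 2 ^ (5 * ll n) :=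
            Nat.mul_le_mul ((Nat.sub_le _ _).trans hp) h5
        _ = 2 ^ (14 * ll n) := by
            rw [← pow_add]
            congr 1
            ring
    have hC : 2 ^ (m.σ * m.E) * (pR n - 1) * (2 * m.E + 3) *
        ((pR n - 1) * (2 * m.G + 3)) ^ (m.G + 1) ≤
        2 ^ (m.σ * m.E + 14 * ll n * (m.G + 2)) := by
      calc 2 ^ (m.σ * m.E) * (pR n - 1) * (2 * m.E + 3) *
            ((pR n - 1) * (2 * m.G + 3)) ^ (m.G + 1)
          = 2 ^ (m.σ * m.E) * ((pR n - 1) * (2 * m.E + 3)) *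
            ((pR n - 1) * (2 * m.G + 3)) ^ (m.G + 1) := by ring
        _ ≤ 2 ^ (m.σ * m.E) * 2 ^ (14 * ll n) * (2 ^ (14 * ll n)) ^ (m.G + 1) :=
            Nat.mul_le_mul (Nat.mul_le_mul_left _ (hB _ hE)) (Nat.pow_le_pow_left (hB _ hG) _)
        _ = _ := by
            rw [← pow_mul, ← pow_add, ← pow_add]
            congr 1
            ring
    refine (Nat.pow_le_pow_left hC _).trans ?_
    rw [← pow_mul]
    apply key
    have h6 : (m.σ * m.E + 14 * ll n * (m.G + 2)) * m.K =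
        m.K * (m.σ * m.E) + 14 * (m.K * (m.G + 2) * ll n) := by ring
    have h7 : m.K * (m.σ * m.E) ≤ (m.K + 1) * (m.σ * m.E) :=
      Nat.mul_le_mul_right _ (Nat.le_succ _)
    have h8 : m.K * (m.G + 2) * ll n ≤ 4 * qT n * ll n := Nat.mul_le_mul_right _ h2
    have h9 : 4 * qT n * ll n = 4 * (qT n * ll n) := by ring
    omega
  · apply key
    have h5 : m.nv m.G = m.G * m.wn + m.wv := rfl
    omega
  · apply key
    have h7 : 1 * (m.σ * m.E) ≤ (m.K + 1) * (m.σ * m.E) :=
      Nat.mul_le_mul_right _ (Nat.le_add_left _ _)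
    omega

end Pool.Agent.Helper94.RT
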